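import Mathlib

-- part Pool.Agent.Lib.MP_a337a7_an.Seq
section

/-!
Sequence-level part of the renorming argument.
The new norm is the gauge of B_X + M B_Lambda, where Lambda is the largest symmetric norm
whose fundamental function is that of the basis.
-/

set_option autoImplicit false

namespace Pool.Agent.Lib.MP_a337a7_an

open Finset

/-- Any finite set contains, for each admissible size, a subset of at least average weight. -/
theorem exists_subset_avg (g : ℕ → ℝ) :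
    ∀ (n : ℕ) (P : Finset ℕ) (j : ℕ), P.card = n → j ≤ n →
      ∃ J ⊆ P, J.card = j ∧ (j : ℝ) * ∑ i ∈ P, g i ≤ (n : ℝ) * ∑ i ∈ J, g i := by
  intro n
  induction n with
  | zero =>
    intro P j hP hj
    refine ⟨∅, empty_subset _, by simp; omega, ?_⟩
    have : j = 0 := by omega
    simp [this]
  | succ n ih =>
    intro P j hP hj
    rcases Nat.eq_or_lt_of_le hj with h | h
    · refine ⟨P, Subset.refl _, by omega, ?_⟩
      rw [h]
    · have hne : P.Nonempty := by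
        rw [← card_pos]; omega
      obtain ⟨p, hp, hmin⟩ := exists_min_image P g hne
      have hcard : (P.erase p).card = n := by
        rw [card_erase_of_mem hp]; omega
      obtain ⟨J, hJ, hJc, hJs⟩ := ih (P.erase p) j hcard (by omega)
      refine ⟨J, hJ.trans (erase_subset _ _), hJc, ?_⟩
      have h1 : ∑ i ∈ P, g i = g p + ∑ i ∈ P.erase p, g i := (add_sum_erase P g hp).symm
      have h2 : (n : ℝ) * g p ≤ ∑ i ∈ P.erase p, g i := by
        have := card_nsmul_le_sum (P.erase p) g (g p) (fun x hx => hmin x (mem_of_mem_erase hx))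
        rwa [hcard, nsmul_eq_mul] at this
      rcases Nat.eq_zero_or_pos n with hn | hn
      · have hj0 : j = 0 := by omega
        have hJe : J = ∅ := by
          rw [← card_eq_zero]; omega
        simp [hj0, hJe]
      · have hnpos : (0 : ℝ) < n := by exact_mod_cast hn
        have hj0 : (0 : ℝ) ≤ j := Nat.cast_nonneg j
        have key : (n : ℝ) * ((j : ℝ) * ∑ i ∈ P, g i) ≤
            (n : ℝ) * (((n + 1 : ℕ) : ℝ) * ∑ i ∈ J, g i) := by
          rw [h1]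
          push_cast
          have h3 : (j : ℝ) * ((n : ℝ) * g p) ≤ (j : ℝ) * ∑ i ∈ P.erase p, g i :=
            mul_le_mul_of_nonneg_left h2 hj0
          nlinarith
        exact le_of_mul_le_mul_left key hnpos

/-- Nonnegative sequences whose sums over sets of size at most `m` are bounded by `φ m`. -/
def Shape (φ : ℕ → ℝ) (g : ℕ → ℝ) : Prop :=
  (∀ i, 0 ≤ g i) ∧ ∀ (D : Finset ℕ) (m : ℕ), D.card ≤ m → ∑ i ∈ D, g i ≤ φ m

/-- `v` is nonnegative and pairs with each member of `G` to at most `t`. -/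
def Bd (G : Set (ℕ → ℝ)) (v : ℕ → ℝ) (t : ℝ) : Prop :=
  (∀ i, 0 ≤ v i) ∧ ∀ g ∈ G, ∀ F : Finset ℕ, ∑ i ∈ F, g i * v i ≤ t

/-- `s` is dominated by an element of `t (B_G + M B_Lambda)`. -/
def Rel (G : Set (ℕ → ℝ)) (φ : ℕ → ℝ) (M : ℝ) (s : ℕ → ℝ) (t : ℝ) : Prop :=
  ∃ v z : ℕ → ℝ, Bd G v t ∧ Bd {g | Shape φ g} z t ∧ ∀ i, s i ≤ v i + M * z i

theorem Bd.add {G : Set (ℕ → ℝ)} {v w : ℕ → ℝ} {s t : ℝ} (h1 : Bd G v s) (h2 : Bd G w t) :
    Bd G (fun i => v i + w i) (s + t) := by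
  refine ⟨fun i => add_nonneg (h1.1 i) (h2.1 i), fun g hg F => ?_⟩
  have := add_le_add (h1.2 g hg F) (h2.2 g hg F)
  rw [← sum_add_distrib] at this
  simpa [mul_add] using this

theorem Bd.smul {G : Set (ℕ → ℝ)} {v : ℕ → ℝ} {t c : ℝ} (hc : 0 ≤ c) (h : Bd G v t) :
    Bd G (fun i => c * v i) (c * t) := by
  refine ⟨fun i => mul_nonneg hc (h.1 i), fun g hg F => ?_⟩
  have := mul_le_mul_of_nonneg_left (h.2 g hg F) hc
  rw [mul_sum] at this
  refine le_trans (le_of_eq ?_) this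
  exact sum_congr rfl fun i _ => by ring

theorem Bd.mono {G : Set (ℕ → ℝ)} {v : ℕ → ℝ} {s t : ℝ} (h : Bd G v s) (hst : s ≤ t) :
    Bd G v t :=
  ⟨h.1, fun g hg F => (h.2 g hg F).trans hst⟩

theorem Bd.zero (G : Set (ℕ → ℝ)) {t : ℝ} (ht : 0 ≤ t) : Bd G (fun _ => 0) t :=
  ⟨fun _ => le_rfl, fun g _ F => by simpa using ht⟩

theorem Rel.add {G : Set (ℕ → ℝ)} {φ : ℕ → ℝ} {M : ℝ} {s s' s'' : ℕ → ℝ} {t t' : ℝ}
    (h1 : Rel G φ M s t) (h2 : Rel G φ M s' t') (h : ∀ i, s'' i ≤ s i + s' i) :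
    Rel G φ M s'' (t + t') := by
  obtain ⟨v, z, hv, hz, hs⟩ := h1
  obtain ⟨v', z', hv', hz', hs'⟩ := h2
  refine ⟨_, _, hv.add hv', hz.add hz', fun i => ?_⟩
  have := hs i
  have := hs' i
  have := h i
  linarith [mul_add M (z i) (z' i)]

theorem Rel.smul {G : Set (ℕ → ℝ)} {φ : ℕ → ℝ} {M : ℝ} {s s' : ℕ → ℝ} {t c : ℝ}
    (hc : 0 ≤ c) (h1 : Rel G φ M s t) (h : ∀ i, s' i ≤ c * s i) :
    Rel G φ M s' (c * t) := by
  obtain ⟨v, z, hv, hz, hs⟩ := h1
  refine ⟨_, _, hv.smul hc, hz.smul hc, fun i => ?_⟩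
  have := mul_le_mul_of_nonneg_left (hs i) hc
  have := h i
  nlinarith

/-- Moving the mass of a shaped sequence from `P` to `Q` and spreading it evenly keeps the
shape. -/
theorem Shape.move {φ : ℕ → ℝ} {g : ℕ → ℝ} (hg : Shape φ g) (P Q P' : Finset ℕ)
    (hP' : P' ⊆ P) (hc : P.card ≤ Q.card) :
    Shape φ (fun i => if i ∈ Q then (∑ k ∈ P', g k) / Q.card else if i ∈ P then 0 else g i) := by
  classical
  have hs0 : 0 ≤ ∑ k ∈ P', g k := sum_nonneg fun k _ => hg.1 k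
  refine ⟨fun i => ?_, fun D m hD => ?_⟩
  · dsimp only
    split_ifs
    · exact div_nonneg hs0 (Nat.cast_nonneg _)
    · exact le_rfl
    · exact hg.1 i
  · set D1 := D.filter (fun i => i ∉ Q ∧ i ∉ P) with hD1
    set D2 := D.filter (fun i => i ∈ Q) with hD2
    have hsplit : ∑ i ∈ D, (if i ∈ Q then (∑ k ∈ P', g k) / Q.card else
        if i ∈ P then 0 else g i) =
        (D2.card : ℝ) * ((∑ k ∈ P', g k) / Q.card) + ∑ i ∈ D1, g i := by
      rw [hD1, hD2, sum_filter, card_filter]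
      push_cast
      rw [sum_mul, ← sum_add_distrib]
      refine sum_congr rfl fun i _ => ?_
      by_cases h1 : i ∈ Q <;> by_cases h2 : i ∈ P <;> simp [h1, h2]
    have hD2Q : D2.card ≤ Q.card := card_le_card fun i hi => (mem_filter.1 hi).2
    have hJ : ∃ J ⊆ P', J.card ≤ D2.card ∧
        (D2.card : ℝ) * ((∑ k ∈ P', g k) / Q.card) ≤ ∑ i ∈ J, g i := by
      rcases Nat.eq_zero_or_pos Q.card with hQ | hQ
      · exact ⟨∅, empty_subset _, by simp, by simp [hQ]⟩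
      have hQ' : (0 : ℝ) < Q.card := by exact_mod_cast hQ
      rcases le_total P'.card D2.card with h | h
      · refine ⟨P', Subset.refl _, h, ?_⟩
        rw [← mul_div_assoc, div_le_iff₀ hQ', mul_comm]
        exact mul_le_mul_of_nonneg_left (by exact_mod_cast hD2Q) hs0
      · obtain ⟨J, hJ, hJc, hJs⟩ := exists_subset_avg g P'.card P' D2.card rfl h
        refine ⟨J, hJ, hJc.le, ?_⟩
        rw [← mul_div_assoc, div_le_iff₀ hQ']
        have hJ0 : 0 ≤ ∑ i ∈ J, g i := sum_nonneg fun k _ => hg.1 k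
        have : (P'.card : ℝ) ≤ Q.card := by exact_mod_cast (card_le_card hP').trans hc
        nlinarith
    obtain ⟨J, hJP, hJc, hJs⟩ := hJ
    have hdisj : Disjoint J D1 := by
      rw [disjoint_left]
      intro i hi hi1
      exact (mem_filter.1 hi1).2.2 (hP' (hJP hi))
    have hdisj2 : Disjoint D2 D1 := by
      rw [disjoint_left]
      intro i hi hi1
      exact (mem_filter.1 hi1).2.1 (mem_filter.1 hi).2
    have hcard : (J ∪ D1).card ≤ m := by
      rw [card_union_of_disjoint hdisj]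
      have h1 : (D2 ∪ D1).card ≤ D.card :=
        card_le_card (union_subset (filter_subset _ _) (filter_subset _ _))
      rw [card_union_of_disjoint hdisj2] at h1
      omega
    have := hg.2 (J ∪ D1) m hcard
    rw [sum_union hdisj] at this
    rw [hsplit]
    linarith

/-- The averaged sequence with an extra flat block on `P`. -/
theorem Bd.move {φ : ℕ → ℝ} {z : ℕ → ℝ} {t c : ℝ} (hz : Bd {g | Shape φ g} z t)
    (P Q : Finset ℕ) (hc : P.card ≤ Q.card) (hc0 : 0 ≤ c) :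
    Bd {g | Shape φ g}
      (fun i => if i ∈ Q then 0 else if i ∈ P then (∑ k ∈ Q, z k) / Q.card + c else z i)
      (t + c * φ Q.card) := by
  classical
  have hs0 : 0 ≤ ∑ k ∈ Q, z k := sum_nonneg fun k _ => hz.1 k
  refine ⟨fun i => ?_, fun g hg F => ?_⟩
  · dsimp only
    split_ifs
    · exact le_rfl
    · exact add_nonneg (div_nonneg hs0 (Nat.cast_nonneg _)) hc0
    · exact hz.1 i
  · have hg' : Shape φ g := hg
    set P' := F.filter (fun i => i ∉ Q ∧ i ∈ P) with hP'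
    set F1 := F.filter (fun i => i ∉ Q ∧ i ∉ P) with hF1
    have hP'P : P' ⊆ P := fun i hi => (mem_filter.1 hi).2.2
    have hsplit : ∑ i ∈ F, g i * (if i ∈ Q then 0 else
        if i ∈ P then (∑ k ∈ Q, z k) / Q.card + c else z i) =
        (∑ k ∈ P', g k) * ((∑ k ∈ Q, z k) / Q.card + c) + ∑ i ∈ F1, g i * z i := by
      rw [hP', hF1, sum_filter, sum_filter, sum_mul, ← sum_add_distrib]
      refine sum_congr rfl fun i _ => ?_
      by_cases h1 : i ∈ Q <;> by_cases h2 : i ∈ P <;> simp [h1, h2]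
    have hmove := hg'.move P Q P' hP'P hc
    have hdisj : Disjoint Q F1 := by
      rw [disjoint_left]
      intro i hi hi1
      exact (mem_filter.1 hi1).2.1 hi
    have h1 := hz.2 _ hmove (Q ∪ F1)
    rw [sum_union hdisj] at h1
    have h2 : ∑ i ∈ Q, (if i ∈ Q then (∑ k ∈ P', g k) / Q.card else
        if i ∈ P then 0 else g i) * z i = (∑ k ∈ P', g k) * ((∑ k ∈ Q, z k) / Q.card) := by
      rw [sum_congr rfl (g := fun i => (∑ k ∈ P', g k) / Q.card * z i)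
        (fun i hi => by simp [hi]), ← mul_sum]
      ring
    have h3 : ∑ i ∈ F1, (if i ∈ Q then (∑ k ∈ P', g k) / Q.card else
        if i ∈ P then 0 else g i) * z i = ∑ i ∈ F1, g i * z i := by
      refine sum_congr rfl fun i hi => ?_
      have := (mem_filter.1 hi).2
      simp [this.1, this.2]
    rw [h2, h3] at h1
    have h4 : ∑ k ∈ P', g k ≤ φ Q.card := hg'.2 P' _ ((card_le_card hP'P).trans hc)
    rw [hsplit]
    nlinarith

/-- The exchange step. -/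
theorem Rel.exchange {G : Set (ℕ → ℝ)} {φ : ℕ → ℝ} {M K L η : ℝ} (hM : 0 < M) (hL : 0 < L)
    (hK : 0 ≤ K) (hη : K ≤ η * L)
    (hG : ∀ g ∈ G, ∀ i, 0 ≤ g i)
    (hφ : ∀ n, 0 < n → 0 < φ n)
    (H2 : ∀ (D : Finset ℕ) (n : ℕ), D.card ≤ n →
      ∃ g ∈ G, φ n * D.card ≤ K * n * ∑ i ∈ D, g i)
    {s s' : ℕ → ℝ} {t : ℝ} (ht : 0 < t) (h : Rel G φ M s t) (P Q : Finset ℕ)
    (hc : P.card ≤ Q.card) (hs' : ∀ i, 0 ≤ s' i)
    (h1 : ∀ i ∈ P, ∀ j ∈ Q, s' i ≤ s j) (h2 : ∀ j ∈ Q, s' j ≤ 0)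
    (h3 : ∀ i, i ∉ P → i ∉ Q → s' i ≤ s i) :
    Rel G φ M (fun i => (1 - η) * s' i) ((1 + L / M) * t) := by
  classical
  obtain ⟨v, z, hv, hz, hs⟩ := h
  have hη0 : 0 ≤ η := by
    by_contra hneg
    have : η * L < 0 := mul_neg_of_neg_of_pos (not_le.1 hneg) hL
    linarith
  have hLM : 0 ≤ L / M * t := by positivity
  rcases Nat.eq_zero_or_pos Q.card with hQ | hQ
  · have hP : P = ∅ := by
      rw [← card_eq_zero]; omega
    have hQ' : Q = ∅ := card_eq_zero.1 hQ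
    refine ⟨v, z, hv.mono (by linarith [add_mul 1 (L / M) t]),
      hz.mono (by linarith [add_mul 1 (L / M) t]), fun i => ?_⟩
    have := h3 i (by simp [hP]) (by simp [hQ'])
    have := hs i
    have := mul_nonneg hη0 (hs' i)
    dsimp only
    linarith [sub_mul 1 η (s' i)]
  have hn : (0 : ℝ) < Q.card := by exact_mod_cast hQ
  have hφn := hφ _ hQ
  set c : ℝ := L * t / (M * φ Q.card) with hcdef
  have hc0 : 0 ≤ c := by positivity
  have hz' := hz.move P Q hc hc0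
  have hct : t + c * φ Q.card = (1 + L / M) * t := by
    rw [hcdef]; field_simp
  rw [hct] at hz'
  refine ⟨v, _, hv.mono (by linarith [add_mul 1 (L / M) t]), hz', fun i => ?_⟩
  dsimp only
  have hsi := mul_nonneg hη0 (hs' i)
  by_cases hiQ : i ∈ Q
  · have := h2 i hiQ
    have := hv.1 i
    have := hs' i
    simp only [hiQ, if_true]
    nlinarith
  by_cases hiP : i ∈ P
  swap
  · simp only [hiQ, hiP, if_false]
    have := h3 i hiP hiQ
    have := hs i
    linarith [sub_mul 1 η (s' i)]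
  simp only [hiQ, hiP, if_true, if_false]
  -- the set where `v` is large is a small part of `Q`
  set D := Q.filter (fun j => L * t / φ Q.card < v j) with hD
  have hDQ : D.card ≤ Q.card := card_le_card (filter_subset _ _)
  obtain ⟨g, hg, hgD⟩ := H2 D Q.card hDQ
  have hgs : (L * t / φ Q.card) * ∑ j ∈ D, g j ≤ t := by
    refine le_trans ?_ (hv.2 g hg D)
    rw [mul_sum]
    refine sum_le_sum fun j hj => ?_
    rw [mul_comm]
    exact mul_le_mul_of_nonneg_left (mem_filter.1 hj).2.le (hG g hg j)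
  have hgs' : L * ∑ j ∈ D, g j ≤ φ Q.card := by
    rw [div_mul_eq_mul_div, div_le_iff₀ hφn] at hgs
    have : t * (L * ∑ j ∈ D, g j) ≤ t * φ Q.card := by linarith
    exact le_of_mul_le_mul_left this ht
  have hDη : (D.card : ℝ) ≤ η * Q.card := by
    have h5 : L * (φ Q.card * D.card) ≤ L * (K * Q.card * ∑ j ∈ D, g j) :=
      mul_le_mul_of_nonneg_left hgD hL.le
    have h6 : K * Q.card * (L * ∑ j ∈ D, g j) ≤ K * Q.card * φ Q.card :=
      mul_le_mul_of_nonneg_left hgs' (by positivity)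
    have h7 : K * (Q.card * φ Q.card) ≤ η * L * (Q.card * φ Q.card) :=
      mul_le_mul_of_nonneg_right hη (by positivity)
    have h8 : (L * φ Q.card) * D.card ≤ (L * φ Q.card) * (η * Q.card) := by linarith
    exact le_of_mul_le_mul_left h8 (by positivity)
  -- lower bound for the mass of `z` on `Q`
  have hmass : ∑ j ∈ Q, (s' i - L * t / φ Q.card - if j ∈ D then s' i else 0) ≤
      ∑ j ∈ Q, M * z j := by
    refine sum_le_sum fun j hj => ?_
    have hz0 := mul_nonneg hM.le (hz.1 j)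
    have hq : 0 ≤ L * t / φ Q.card := by positivity
    by_cases hjD : j ∈ D
    · simp only [hjD, if_true]
      linarith
    · simp only [hjD, if_false]
      have : v j ≤ L * t / φ Q.card := by
        by_contra hlt
        exact hjD (mem_filter.2 ⟨hj, not_le.1 hlt⟩)
      have := h1 i hiP j hj
      have := hs j
      linarith
  have hsumD : ∑ j ∈ Q, (if j ∈ D then s' i else 0) = D.card * s' i := by
    rw [← sum_filter]
    have : Q.filter (fun j => j ∈ D) = D := by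
      ext j
      simp only [mem_filter, and_iff_right_iff_imp]
      intro hj
      exact (mem_filter.1 hj).1
    rw [this, sum_const, nsmul_eq_mul]
  rw [sum_sub_distrib, sum_const, nsmul_eq_mul, hsumD, ← mul_sum] at hmass
  have hfin : (1 - η) * s' i ≤ M * ((∑ k ∈ Q, z k) / Q.card + c) := by
    have e1 : M * ((∑ k ∈ Q, z k) / Q.card + c) =
        (M * (∑ k ∈ Q, z k) + Q.card * (L * t / φ Q.card)) / Q.card := by
      rw [hcdef]; field_simp
    rw [e1, le_div_iff₀ hn]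
    have := mul_le_mul_of_nonneg_right hDη (hs' i)
    nlinarith
  have := hv.1 i
  linarith

end Pool.Agent.Lib.MP_a337a7_an
end

-- part Pool.Agent.Lib.MP_a337a7_an.Basis
section

/-!
Consequences of greediness: suppression unconditionality and democracy, in the form needed
for the renorming.
-/

set_option autoImplicit false

namespace Pool.Agent.Lib.MP_a337a7_an

open Finset Filter Topology

theorem sum_abs_le_two (c : ℕ → ℝ) (F : Finset ℕ) (T : ℝ)
    (h : ∀ F' ⊆ F, |∑ i ∈ F', c i| ≤ T) : ∑ i ∈ F, |c i| ≤ 2 * T := by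
  classical
  have h1 := h (F.filter fun i => 0 ≤ c i) (filter_subset _ _)
  have h2 := h (F.filter fun i => ¬ 0 ≤ c i) (filter_subset _ _)
  rw [← sum_filter_add_sum_filter_not F (fun i => 0 ≤ c i)]
  have e1 : ∑ i ∈ F.filter (fun i => 0 ≤ c i), |c i| =
      ∑ i ∈ F.filter (fun i => 0 ≤ c i), c i :=
    sum_congr rfl fun i hi => abs_of_nonneg (mem_filter.1 hi).2
  have e2 : ∑ i ∈ F.filter (fun i => ¬ 0 ≤ c i), |c i| =
      - ∑ i ∈ F.filter (fun i => ¬ 0 ≤ c i), c i := by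
    rw [← sum_neg_distrib]
    exact sum_congr rfl fun i hi => abs_of_neg (not_le.1 (mem_filter.1 hi).2)
  rw [e1, e2]
  have := le_abs_self (∑ i ∈ F.filter (fun i => 0 ≤ c i), c i)
  have := neg_le_abs (∑ i ∈ F.filter (fun i => ¬ 0 ≤ c i), c i)
  linarith

theorem sum_norm_le_four {𝕜 : Type} [RCLike 𝕜] (c : ℕ → 𝕜) (F : Finset ℕ) (T : ℝ)
    (h : ∀ F' ⊆ F, ‖∑ i ∈ F', c i‖ ≤ T) : ∑ i ∈ F, ‖c i‖ ≤ 4 * T := by
  have h1 := sum_abs_le_two (fun i => RCLike.re (c i)) F T (fun F' hF' => by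
    rw [← map_sum]
    exact (RCLike.abs_re_le_norm _).trans (h F' hF'))
  have h2 := sum_abs_le_two (fun i => RCLike.im (c i)) F T (fun F' hF' => by
    rw [← map_sum]
    exact (RCLike.abs_im_le_norm _).trans (h F' hF'))
  have h3 : ∑ i ∈ F, ‖c i‖ ≤ ∑ i ∈ F, (|RCLike.re (c i)| + |RCLike.im (c i)|) := by
    refine sum_le_sum fun i _ => ?_
    have e : c i = (RCLike.re (c i) : 𝕜) + (RCLike.im (c i) : 𝕜) * RCLike.I :=
      (RCLike.re_add_im (c i)).symm
    calc ‖c i‖ = ‖(RCLike.re (c i) : 𝕜) + (RCLike.im (c i) : 𝕜) * RCLike.I‖ := by rw [← e]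
      _ ≤ ‖(RCLike.re (c i) : 𝕜)‖ + ‖(RCLike.im (c i) : 𝕜) * RCLike.I‖ := norm_add_le _ _
      _ ≤ |RCLike.re (c i)| + |RCLike.im (c i)| := by
        rw [norm_mul, RCLike.norm_ofReal, RCLike.norm_ofReal]
        have hI : ‖(RCLike.I : 𝕜)‖ ≤ 1 := by
          rcases eq_or_ne (RCLike.I : 𝕜) 0 with h0 | h0
          · simp [h0]
          · exact (RCLike.norm_I_of_ne_zero h0).le
        have := mul_le_mul_of_nonneg_left hI (abs_nonneg (RCLike.im (c i)))
        linarith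
  rw [sum_add_distrib] at h3
  linarith

section

variable {𝕜 : Type} [RCLike 𝕜] {X : Type} [NormedAddCommGroup X] [NormedSpace 𝕜 X]
  {e : ℕ → X} {f : ℕ → X →L[𝕜] 𝕜}

theorem coeff_sum (hb : ∀ i j : ℕ, f i (e j) = if i = j then 1 else 0) (F : Finset ℕ)
    (a : ℕ → 𝕜) (j : ℕ) : f j (∑ i ∈ F, a i • e i) = if j ∈ F then a j else 0 := by
  rw [map_sum]
  simp only [map_smul, hb, smul_eq_mul, mul_ite, mul_one, mul_zero]
  rw [sum_ite_eq]

theorem coeff_ind (hb : ∀ i j : ℕ, f i (e j) = if i = j then 1 else 0) (F : Finset ℕ)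
    (j : ℕ) : f j (∑ i ∈ F, e i) = if j ∈ F then 1 else 0 := by
  have := coeff_sum hb F (fun _ => 1) j
  simpa using this

/-- Democracy. -/
theorem democracy (hb : ∀ i j : ℕ, f i (e j) = if i = j then 1 else 0) {C : ℝ}
    (hC : ∀ (x : X) (A B : Finset ℕ) (a : ℕ → 𝕜),
      (∀ i ∈ A, ∀ j ∉ A, ‖f j x‖ ≤ ‖f i x‖) → B.card ≤ A.card →
      ‖x - ∑ i ∈ A, f i x • e i‖ ≤ C * ‖x - ∑ i ∈ B, a i • e i‖)
    (D E : Finset ℕ) (hDE : D.card ≤ E.card) :
    ‖∑ i ∈ D, e i‖ ≤ C * ‖∑ i ∈ E, e i‖ := by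
  classical
  have hcard : (D \ E).card ≤ (E \ D).card := by
    have h1 := card_sdiff_add_card_inter D E
    have h2 := card_sdiff_add_card_inter E D
    rw [inter_comm] at h2
    omega
  have h := hC (∑ i ∈ D ∪ E, e i) (E \ D) (D \ E) (fun _ => 1) (by
    intro i hi j _
    have hi' : i ∈ D ∪ E := mem_union_right _ (mem_sdiff.1 hi).1
    rw [coeff_ind hb, coeff_ind hb, if_pos hi']
    split_ifs <;> simp) hcard
  have e1 : ∑ i ∈ E \ D, f i (∑ i ∈ D ∪ E, e i) • e i = ∑ i ∈ E \ D, e i := by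
    refine sum_congr rfl fun i hi => ?_
    have hi' : i ∈ D ∪ E := mem_union_right _ (mem_sdiff.1 hi).1
    rw [coeff_ind hb, if_pos hi', one_smul]
  have e2 : ∑ i ∈ D ∪ E, e i = ∑ i ∈ D, e i + ∑ i ∈ E \ D, e i := by
    rw [← sum_union disjoint_sdiff, union_sdiff_self_eq_union]
  have e3 : ∑ i ∈ D ∪ E, e i = ∑ i ∈ E, e i + ∑ i ∈ D \ E, e i := by
    rw [← sum_union disjoint_sdiff, union_sdiff_self_eq_union, union_comm]
  rw [e1] at h
  simp only [one_smul] at h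
  have e4 : ∑ i ∈ D ∪ E, e i - ∑ i ∈ E \ D, e i = ∑ i ∈ D, e i := by rw [e2]; abel
  have e5 : ∑ i ∈ D ∪ E, e i - ∑ i ∈ D \ E, e i = ∑ i ∈ E, e i := by rw [e3]; abel
  rwa [e4, e5] at h

/-- Suppression unconditionality for finite sums. -/
theorem suppression_fin (hb : ∀ i j : ℕ, f i (e j) = if i = j then 1 else 0) {C : ℝ}
    (hC : ∀ (x : X) (A B : Finset ℕ) (a : ℕ → 𝕜),
      (∀ i ∈ A, ∀ j ∉ A, ‖f j x‖ ≤ ‖f i x‖) → B.card ≤ A.card →
      ‖x - ∑ i ∈ A, f i x • e i‖ ≤ C * ‖x - ∑ i ∈ B, a i • e i‖)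
    (c : ℕ → 𝕜) (F E : Finset ℕ) (hFE : F ⊆ E) :
    ‖∑ i ∈ F, c i • e i‖ ≤ C * ‖∑ i ∈ E, c i • e i‖ := by
  classical
  set t : ℝ := ∑ i ∈ F, ‖c i‖ with ht
  have ht0 : 0 ≤ t := sum_nonneg fun i _ => norm_nonneg _
  set w : X := ∑ i ∈ F, c i • e i + ∑ i ∈ E \ F, (t : 𝕜) • e i with hw
  have hcoef : ∀ j, f j w = (if j ∈ F then c j else 0) + (if j ∈ E \ F then (t : 𝕜) else 0) := by
    intro j
    rw [hw, map_add, coeff_sum hb, coeff_sum hb (E \ F) (fun _ => (t : 𝕜))]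
  have hB : ∀ i ∈ E \ F, f i w = (t : 𝕜) := by
    intro i hi
    rw [hcoef, if_pos hi, if_neg (mem_sdiff.1 hi).2, zero_add]
  have h := hC w (E \ F) (E \ F) (fun i => (t : 𝕜) - c i) (by
    intro i hi j hj
    rw [hB i hi, hcoef, if_neg hj, add_zero, RCLike.norm_ofReal, abs_of_nonneg ht0]
    split_ifs with hjF
    · exact single_le_sum (f := fun i => ‖c i‖) (fun i _ => norm_nonneg _) hjF
    · simpa using ht0) le_rfl
  have e1 : w - ∑ i ∈ E \ F, f i w • e i = ∑ i ∈ F, c i • e i := by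
    rw [sum_congr rfl (g := fun i => (t : 𝕜) • e i) (fun i hi => by rw [hB i hi]), hw]
    abel
  have e2 : w - ∑ i ∈ E \ F, ((t : 𝕜) - c i) • e i = ∑ i ∈ E, c i • e i := by
    rw [hw, ← sum_sdiff hFE]
    simp only [sub_smul, sum_sub_distrib]
    abel
  rwa [e1, e2] at h

/-- Suppression unconditionality. -/
theorem suppression (hb : ∀ i j : ℕ, f i (e j) = if i = j then 1 else 0)
    (hs : ∀ x : X, Tendsto (fun N : ℕ => ∑ n ∈ range N, f n x • e n) atTop (𝓝 x)) {C : ℝ}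
    (hC : ∀ (x : X) (A B : Finset ℕ) (a : ℕ → 𝕜),
      (∀ i ∈ A, ∀ j ∉ A, ‖f j x‖ ≤ ‖f i x‖) → B.card ≤ A.card →
      ‖x - ∑ i ∈ A, f i x • e i‖ ≤ C * ‖x - ∑ i ∈ B, a i • e i‖)
    (x : X) (F : Finset ℕ) : ‖∑ i ∈ F, f i x • e i‖ ≤ C * ‖x‖ := by
  have hlim : Tendsto (fun N : ℕ => C * ‖∑ n ∈ range N, f n x • e n‖) atTop (𝓝 (C * ‖x‖)) :=
    ((hs x).norm).const_mul C
  refine ge_of_tendsto hlim ?_
  filter_upwards [eventually_ge_atTop (F.sup id + 1)] with N hN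
  refine suppression_fin hb hC (fun i => f i x) F (range N) fun i hi => ?_
  have : i ≤ F.sup id := le_sup (f := id) hi
  exact mem_range.2 (by omega)

/-- The moduli of the values of norm-one functionals on the basis. -/
def dualSet (𝕜 : Type) [RCLike 𝕜] {X : Type} [NormedAddCommGroup X] [NormedSpace 𝕜 X]
    (e : ℕ → X) : Set (ℕ → ℝ) :=
  {g | ∃ l : X →L[𝕜] 𝕜, ‖l‖ ≤ 1 ∧ ∀ i, g i = ‖l (e i)‖}

theorem norm_apply_le {l : X →L[𝕜] 𝕜} (hl : ‖l‖ ≤ 1) (x : X) : ‖l x‖ ≤ ‖x‖ :=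
  (l.le_opNorm x).trans (by simpa using mul_le_mul_of_nonneg_right hl (norm_nonneg x))

theorem dualSet_nonneg : ∀ g ∈ dualSet 𝕜 e, ∀ i, 0 ≤ g i := by
  rintro g ⟨l, _, hg⟩ i
  rw [hg]; exact norm_nonneg _

theorem dualSet_bd (hb : ∀ i j : ℕ, f i (e j) = if i = j then 1 else 0)
    (hs : ∀ x : X, Tendsto (fun N : ℕ => ∑ n ∈ range N, f n x • e n) atTop (𝓝 x)) {C : ℝ}
    (hC : ∀ (x : X) (A B : Finset ℕ) (a : ℕ → 𝕜),
      (∀ i ∈ A, ∀ j ∉ A, ‖f j x‖ ≤ ‖f i x‖) → B.card ≤ A.card →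
      ‖x - ∑ i ∈ A, f i x • e i‖ ≤ C * ‖x - ∑ i ∈ B, a i • e i‖)
    (x : X) : Bd (dualSet 𝕜 e) (fun i => ‖f i x‖) (4 * (C * ‖x‖)) := by
  refine ⟨fun i => norm_nonneg _, ?_⟩
  rintro g ⟨l, hl, hg⟩ F
  have h := sum_norm_le_four (fun i => f i x * l (e i)) F (C * ‖x‖) (fun F' _ => by
    have : ∑ i ∈ F', f i x * l (e i) = l (∑ i ∈ F', f i x • e i) := by
      rw [map_sum]; simp
    rw [this]
    exact (norm_apply_le hl _).trans (suppression hb hs hC x F'))
  refine le_trans (le_of_eq ?_) h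
  refine sum_congr rfl fun i _ => ?_
  rw [hg, norm_mul, mul_comm]

theorem dualSet_sum_le (hb : ∀ i j : ℕ, f i (e j) = if i = j then 1 else 0) {C : ℝ}
    (hC : ∀ (x : X) (A B : Finset ℕ) (a : ℕ → 𝕜),
      (∀ i ∈ A, ∀ j ∉ A, ‖f j x‖ ≤ ‖f i x‖) → B.card ≤ A.card →
      ‖x - ∑ i ∈ A, f i x • e i‖ ≤ C * ‖x - ∑ i ∈ B, a i • e i‖)
    {g : ℕ → ℝ} (hg : g ∈ dualSet 𝕜 e) (D E : Finset ℕ) (hDE : D.card ≤ E.card) :
    ∑ i ∈ D, g i ≤ 4 * (C * ‖∑ i ∈ E, e i‖) := by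
  obtain ⟨l, hl, hg⟩ := hg
  have h := sum_norm_le_four (fun i => l (e i)) D (C * ‖∑ i ∈ E, e i‖) (fun F' hF' => by
    rw [← map_sum]
    exact (norm_apply_le hl _).trans (democracy hb hC F' E ((card_le_card hF').trans hDE)))
  refine le_trans (le_of_eq ?_) h
  exact sum_congr rfl fun i _ => hg i

theorem exists_norming (D : Finset ℕ) :
    ∃ g ∈ dualSet 𝕜 e, ‖∑ i ∈ D, e i‖ ≤ ∑ i ∈ D, g i := by
  obtain ⟨l, hl, hx⟩ := exists_dual_vector'' 𝕜 (∑ i ∈ D, e i)
  refine ⟨fun i => ‖l (e i)‖, ⟨l, hl, fun _ => rfl⟩, ?_⟩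
  have : ‖∑ i ∈ D, e i‖ = ‖l (∑ i ∈ D, e i)‖ := by
    rw [hx, RCLike.norm_ofReal, abs_of_nonneg (norm_nonneg _)]
  rw [this, map_sum]
  exact norm_sum_le _ _

theorem ind_pos (hb : ∀ i j : ℕ, f i (e j) = if i = j then 1 else 0) {n : ℕ} (hn : 0 < n) :
    0 < ‖∑ i ∈ range n, e i‖ := by
  rw [norm_pos_iff]
  intro h
  have := coeff_ind hb (range n) 0
  rw [h, map_zero, if_pos (mem_range.2 hn)] at this
  exact zero_ne_one this

theorem one_le_const (hb : ∀ i j : ℕ, f i (e j) = if i = j then 1 else 0) {C : ℝ}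
    (hC : ∀ (x : X) (A B : Finset ℕ) (a : ℕ → 𝕜),
      (∀ i ∈ A, ∀ j ∉ A, ‖f j x‖ ≤ ‖f i x‖) → B.card ≤ A.card →
      ‖x - ∑ i ∈ A, f i x • e i‖ ≤ C * ‖x - ∑ i ∈ B, a i • e i‖) : 1 ≤ C := by
  have h := democracy hb hC (range 1) (range 1) le_rfl
  have hp := ind_pos hb Nat.one_pos
  by_contra hlt
  nlinarith [not_le.1 hlt]

/-- Lower democracy estimate with quasi-concavity of the fundamental function. -/
theorem exists_dual_large (hb : ∀ i j : ℕ, f i (e j) = if i = j then 1 else 0) {C : ℝ}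
    (hC : ∀ (x : X) (A B : Finset ℕ) (a : ℕ → 𝕜),
      (∀ i ∈ A, ∀ j ∉ A, ‖f j x‖ ≤ ‖f i x‖) → B.card ≤ A.card →
      ‖x - ∑ i ∈ A, f i x • e i‖ ≤ C * ‖x - ∑ i ∈ B, a i • e i‖)
    (D : Finset ℕ) (n : ℕ) (hD : D.card ≤ n) :
    ∃ g ∈ dualSet 𝕜 e, (4 * (C * ‖∑ i ∈ range n, e i‖)) * D.card ≤
      (16 * C ^ 2) * n * ∑ i ∈ D, g i := by
  have hC1 := one_le_const hb hC
  obtain ⟨g, hg, hgD⟩ := exists_norming (𝕜 := 𝕜) (e := e) D
  obtain ⟨h, hh, hhn⟩ := exists_norming (𝕜 := 𝕜) (e := e) (range n)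
  obtain ⟨J, _, hJc, hJs⟩ := exists_subset_avg h n (range n) D.card (card_range n) hD
  have hJ := dualSet_sum_le hb hC hh J D hJc.le
  refine ⟨g, hg, ?_⟩
  have hn : (0 : ℝ) ≤ n := Nat.cast_nonneg n
  have hd : (0 : ℝ) ≤ D.card := Nat.cast_nonneg _
  have h1 : (D.card : ℝ) * ‖∑ i ∈ range n, e i‖ ≤ D.card * ∑ i ∈ range n, h i :=
    mul_le_mul_of_nonneg_left hhn hd
  have h2 : (n : ℝ) * ∑ i ∈ J, h i ≤ n * (4 * (C * ‖∑ i ∈ D, e i‖)) :=
    mul_le_mul_of_nonneg_left hJ hn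
  have h3 : (n : ℝ) * (4 * (C * ‖∑ i ∈ D, e i‖)) ≤ n * (4 * (C * ∑ i ∈ D, g i)) := by
    gcongr
  have h4 : (D.card : ℝ) * ‖∑ i ∈ range n, e i‖ ≤ n * (4 * (C * ∑ i ∈ D, g i)) := by linarith
  have h5 := mul_le_mul_of_nonneg_left h4 (show 0 ≤ 4 * C by linarith)
  nlinarith

/-- The relation controls the original norm. -/
theorem norm_le_of_rel
    (hs : ∀ x : X, Tendsto (fun N : ℕ => ∑ n ∈ range N, f n x • e n) atTop (𝓝 x))
    {φ : ℕ → ℝ} (hφ : ∀ g ∈ dualSet 𝕜 e, Shape φ g) {M : ℝ} (hM : 0 ≤ M) (x : X) {t : ℝ}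
    (h : Rel (dualSet 𝕜 e) φ M (fun i => ‖f i x‖) t) : ‖x‖ ≤ (1 + M) * t := by
  obtain ⟨v, z, hv, hz, hsz⟩ := h
  obtain ⟨l, hl, hx⟩ := exists_dual_vector'' 𝕜 x
  have hg : (fun i => ‖l (e i)‖) ∈ dualSet 𝕜 e := ⟨l, hl, fun _ => rfl⟩
  have hlim : Tendsto (fun N : ℕ => ‖l (∑ n ∈ range N, f n x • e n)‖) atTop (𝓝 ‖l x‖) :=
    ((l.continuous.tendsto x).comp (hs x)).norm
  have e1 : ‖l x‖ = ‖x‖ := by
    rw [hx, RCLike.norm_ofReal, abs_of_nonneg (norm_nonneg _)]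
  rw [e1] at hlim
  refine le_of_tendsto' hlim fun N => ?_
  have h1 := hv.2 _ hg (range N)
  have h2 := mul_le_mul_of_nonneg_left (hz.2 _ (hφ _ hg) (range N)) hM
  rw [mul_sum] at h2
  have h3 := add_le_add h1 h2
  rw [← sum_add_distrib] at h3
  rw [map_sum]
  refine (norm_sum_le _ _).trans (le_trans (sum_le_sum fun i _ => ?_) (h3.trans (by linarith)))
  rw [map_smul, smul_eq_mul, norm_mul]
  have := mul_le_mul_of_nonneg_left (hsz i) (norm_nonneg (l (e i)))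
  dsimp only at this
  nlinarith

end

end Pool.Agent.Lib.MP_a337a7_an
end

-- part Pool.Agent.Lib.MP_a337a7_an.Renorm
section

/-!
The renorming theorem.
-/

set_option autoImplicit false

namespace Pool.Agent.Lib.MP_a337a7_an

open Finset Filter Topology

theorem renorm (𝕜 : Type) [RCLike 𝕜] (X : Type) [NormedAddCommGroup X] [NormedSpace 𝕜 X]
    (e : ℕ → X) (f : ℕ → X →L[𝕜] 𝕜)
    (hb : ∀ i j : ℕ, f i (e j) = if i = j then 1 else 0)
    (hs : ∀ x : X, Tendsto (fun N : ℕ => ∑ n ∈ range N, f n x • e n) atTop (𝓝 x)) {C : ℝ}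
    (hC : ∀ (x : X) (A B : Finset ℕ) (a : ℕ → 𝕜),
      (∀ i ∈ A, ∀ j ∉ A, ‖f j x‖ ≤ ‖f i x‖) → B.card ≤ A.card →
      ‖x - ∑ i ∈ A, f i x • e i‖ ≤ C * ‖x - ∑ i ∈ B, a i • e i‖)
    (ε : ℝ) (hε : 0 < ε) :
    ∃ N : Seminorm 𝕜 X,
      (∃ c : ℝ, 0 < c ∧ ∃ D : ℝ, ∀ x : X, c * ‖x‖ ≤ N x ∧ N x ≤ D * ‖x‖) ∧
      ∀ (x : X) (A B : Finset ℕ) (a : ℕ → 𝕜),
        (∀ i ∈ A, ∀ j ∉ A, ‖f j x‖ ≤ ‖f i x‖) → B.card ≤ A.card →
        N (x - ∑ i ∈ A, f i x • e i) ≤ (1 + ε) * N (x - ∑ i ∈ B, a i • e i) := by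
  classical
  have hC1 := one_le_const hb hC
  set φ : ℕ → ℝ := fun m => 4 * (C * ‖∑ i ∈ range m, e i‖) with hφ
  set K : ℝ := 16 * C ^ 2 with hK
  have hK0 : 0 < K := by positivity
  set η : ℝ := ε / (2 * (1 + ε)) with hη
  have hη0 : 0 < η := by positivity
  have hη1 : 0 < 1 - η := by
    rw [hη, sub_pos, div_lt_one (by positivity)]; linarith
  set L : ℝ := K / η with hL
  have hL0 : 0 < L := by positivity
  set M : ℝ := 2 * L / ε with hM
  have hM0 : 0 < M := by positivity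
  have hshape : ∀ g ∈ dualSet 𝕜 e, Shape φ g := by
    intro g hg
    refine ⟨dualSet_nonneg g hg, fun D m hD => ?_⟩
    exact dualSet_sum_le hb hC hg D (range m) (by rwa [card_range])
  have hφpos : ∀ n, 0 < n → 0 < φ n := by
    intro n hn
    have := ind_pos hb hn
    simp only [hφ]
    positivity
  set T : X → Set ℝ := fun x => {t | 0 < t ∧ Rel (dualSet 𝕜 e) φ M (fun i => ‖f i x‖) t}
    with hT
  have hup : ∀ x t, 4 * (C * ‖x‖) < t → t ∈ T x := by
    intro x t ht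
    have h0 : 0 ≤ 4 * (C * ‖x‖) := by positivity
    refine ⟨by linarith, _, _, (dualSet_bd hb hs hC x).mono ht.le, Bd.zero _ (by linarith),
      fun i => by simp⟩
  have hne : ∀ x, (T x).Nonempty := fun x => ⟨_, hup x (4 * (C * ‖x‖) + 1) (by linarith)⟩
  have hbdd : ∀ x, BddBelow (T x) := fun x => ⟨0, fun t ht => ht.1.le⟩
  have hle : ∀ x, sInf (T x) ≤ 4 * (C * ‖x‖) := by
    intro x
    refine le_of_forall_gt_imp_ge_of_dense fun t ht => csInf_le (hbdd x) (hup x t ht)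
  have hnonneg : ∀ x, 0 ≤ sInf (T x) := fun x => le_csInf (hne x) fun t ht => ht.1.le
  -- transfer principle
  have htrans : ∀ (x y : X) (c : ℝ), 0 < c → (∀ t ∈ T y, c * t ∈ T x) →
      sInf (T x) ≤ c * sInf (T y) := by
    intro x y c hc h
    rw [mul_comm, ← div_le_iff₀ hc]
    refine le_csInf (hne y) fun t ht => ?_
    rw [div_le_iff₀ hc, mul_comm]
    exact csInf_le (hbdd x) (h t ht)
  have hzero : sInf (T 0) = 0 := le_antisymm (by simpa using hle 0) (hnonneg 0)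
  have hadd : ∀ x y, sInf (T (x + y)) ≤ sInf (T x) + sInf (T y) := by
    intro x y
    rw [← sub_le_iff_le_add]
    refine le_csInf (hne x) fun s hs' => ?_
    rw [sub_le_comm]
    refine le_csInf (hne y) fun t ht => ?_
    rw [sub_le_iff_le_add']
    refine csInf_le (hbdd _) ⟨add_pos hs'.1 ht.1, hs'.2.add ht.2 fun i => ?_⟩
    rw [map_add]
    exact norm_add_le _ _
  have hsmul : ∀ (r : 𝕜) (x : X), sInf (T (r • x)) ≤ ‖r‖ * sInf (T x) := by
    intro r x
    rcases eq_or_ne r 0 with hr | hr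
    · simp [hr, hzero]
    · have hr' : 0 < ‖r‖ := norm_pos_iff.2 hr
      refine htrans _ _ _ hr' fun t ht => ⟨mul_pos hr' ht.1, ht.2.smul hr'.le fun i => ?_⟩
      rw [map_smul, smul_eq_mul, norm_mul]
  refine ⟨Seminorm.ofSMulLE (fun x => sInf (T x)) hzero hadd hsmul,
    ⟨1 / (1 + M), by positivity, 4 * C, fun x => ⟨?_, ?_⟩⟩, ?_⟩
  · change 1 / (1 + M) * ‖x‖ ≤ sInf (T x)
    refine le_csInf (hne x) fun t ht => ?_
    have := norm_le_of_rel hs hshape hM0.le x ht.2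
    rw [one_div_mul_eq_div, div_le_iff₀ (by positivity)]
    linarith
  · change sInf (T x) ≤ 4 * C * ‖x‖
    have := hle x
    linarith
  · intro x A B a hA hBA
    change sInf (T (x - ∑ i ∈ A, f i x • e i)) ≤ (1 + ε) * sInf (T (x - ∑ i ∈ B, a i • e i))
    refine htrans _ _ _ (by positivity) fun t ht => ⟨mul_pos (by positivity) ht.1, ?_⟩
    have hcA : ∀ j, f j (x - ∑ i ∈ A, f i x • e i) = if j ∈ A then 0 else f j x := by
      intro j
      rw [map_sub, coeff_sum hb A (fun i => f i x)]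
      split_ifs <;> simp
    have hcB : ∀ j, j ∉ B → f j (x - ∑ i ∈ B, a i • e i) = f j x := by
      intro j hj
      rw [map_sub, coeff_sum hb B a, if_neg hj, sub_zero]
    have hcard : (B \ A).card ≤ (A \ B).card := by
      have h1 := card_sdiff_add_card_inter A B
      have h2 := card_sdiff_add_card_inter B A
      rw [inter_comm] at h2
      omega
    have hex := Rel.exchange (η := η) (s' := fun i => ‖f i (x - ∑ i ∈ A, f i x • e i)‖)
      hM0 hL0 hK0.le (by rw [hL]; field_simp; rfl) dualSet_nonneg hφpos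
      (exists_dual_large hb hC) ht.1 ht.2 (B \ A) (A \ B) hcard (fun i => norm_nonneg _)
      (by
        intro i hi j hj
        rw [hcA, if_neg (mem_sdiff.1 hi).2, hcB j (mem_sdiff.1 hj).2]
        exact hA j (mem_sdiff.1 hj).1 i (mem_sdiff.1 hi).2)
      (by
        intro j hj
        rw [hcA, if_pos (mem_sdiff.1 hj).1, norm_zero])
      (by
        intro i hi1 hi2
        rw [hcA]
        split_ifs with hiA
        · rw [norm_zero]; exact norm_nonneg _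
        · have hiB : i ∉ B := fun hiB => hi1 (mem_sdiff.2 ⟨hiB, hiA⟩)
          rw [hcB i hiB])
    have hfin := hex.smul (c := 1 / (1 - η))
      (s' := fun i => ‖f i (x - ∑ i ∈ A, f i x • e i)‖) (by positivity) (fun i => by
        rw [← mul_assoc, one_div_mul_cancel hη1.ne', one_mul])
    have hconst : 1 / (1 - η) * ((1 + L / M) * t) = (1 + ε) * t := by
      have e1 : L / M = ε / 2 := by rw [hM]; field_simp
      have e2 : 1 - η = (1 + ε / 2) / (1 + ε) := by rw [hη]; field_simp; ring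
      rw [e1, e2]
      field_simp
    rwa [hconst] at hfin

end Pool.Agent.Lib.MP_a337a7_an
end
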