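import Pool.Agent.Lib.MP_a337a7_an.Renorm

/-!
The renorming theorem in every universe, with explicit constants and the lattice property.
-/

set_option autoImplicit false

namespace Pool.Agent.Lib.MP_a337a7_an.U

open Finset Filter Topology

section

variable {𝕜 : Type} [RCLike 𝕜] {X : Type*} [NormedAddCommGroup X] [NormedSpace 𝕜 X]
  {e : ℕ → X} {f : ℕ → X →L[𝕜] 𝕜}

theorem coeff_sum (hb : ∀ i j : ℕ, f i (e j) = if i = j then 1 else 0) (F : Finset ℕ)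
    (a : ℕ → 𝕜) (j : ℕ) : f j (∑ i ∈ F, a i • e i) = if j ∈ F then a j else 0 := by
  rw [map_sum]
  simp only [map_smul, hb, smul_eq_mul, mul_ite, mul_one, mul_zero]
  rw [sum_ite_eq]

theorem coeff_ind (hb : ∀ i j : ℕ, f i (e j) = if i = j then 1 else 0) (F : Finset ℕ)
    (j : ℕ) : f j (∑ i ∈ F, e i) = if j ∈ F then 1 else 0 := by
  have := coeff_sum hb F (fun _ => 1) j
  simpa using this

/-- Democracy. -/
theorem democracy (hb : ∀ i j : ℕ, f i (e j) = if i = j then 1 else 0) {C : ℝ}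
    (hC : ∀ (x : X) (A B : Finset ℕ) (a : ℕ → 𝕜),
      (∀ i ∈ A, ∀ j ∉ A, ‖f j x‖ ≤ ‖f i x‖) → B.card ≤ A.card →
      ‖x - ∑ i ∈ A, f i x • e i‖ ≤ C * ‖x - ∑ i ∈ B, a i • e i‖)
    (D E : Finset ℕ) (hDE : D.card ≤ E.card) :
    ‖∑ i ∈ D, e i‖ ≤ C * ‖∑ i ∈ E, e i‖ := by
  classical
  have hcard : (D \ E).card ≤ (E \ D).card := by
    have h1 := card_sdiff_add_card_inter D E
    have h2 := card_sdiff_add_card_inter E D
    rw [inter_comm] at h2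
    omega
  have h := hC (∑ i ∈ D ∪ E, e i) (E \ D) (D \ E) (fun _ => 1) (by
    intro i hi j _
    have hi' : i ∈ D ∪ E := mem_union_right _ (mem_sdiff.1 hi).1
    rw [coeff_ind hb, coeff_ind hb, if_pos hi']
    split_ifs <;> simp) hcard
  have e1 : ∑ i ∈ E \ D, f i (∑ i ∈ D ∪ E, e i) • e i = ∑ i ∈ E \ D, e i := by
    refine sum_congr rfl fun i hi => ?_
    have hi' : i ∈ D ∪ E := mem_union_right _ (mem_sdiff.1 hi).1
    rw [coeff_ind hb, if_pos hi', one_smul]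
  have e2 : ∑ i ∈ D ∪ E, e i = ∑ i ∈ D, e i + ∑ i ∈ E \ D, e i := by
    rw [← sum_union disjoint_sdiff, union_sdiff_self_eq_union]
  have e3 : ∑ i ∈ D ∪ E, e i = ∑ i ∈ E, e i + ∑ i ∈ D \ E, e i := by
    rw [← sum_union disjoint_sdiff, union_sdiff_self_eq_union, union_comm]
  rw [e1] at h
  simp only [one_smul] at h
  have e4 : ∑ i ∈ D ∪ E, e i - ∑ i ∈ E \ D, e i = ∑ i ∈ D, e i := by rw [e2]; abel
  have e5 : ∑ i ∈ D ∪ E, e i - ∑ i ∈ D \ E, e i = ∑ i ∈ E, e i := by rw [e3]; abel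
  rwa [e4, e5] at h

/-- Suppression unconditionality for finite sums. -/
theorem suppression_fin (hb : ∀ i j : ℕ, f i (e j) = if i = j then 1 else 0) {C : ℝ}
    (hC : ∀ (x : X) (A B : Finset ℕ) (a : ℕ → 𝕜),
      (∀ i ∈ A, ∀ j ∉ A, ‖f j x‖ ≤ ‖f i x‖) → B.card ≤ A.card →
      ‖x - ∑ i ∈ A, f i x • e i‖ ≤ C * ‖x - ∑ i ∈ B, a i • e i‖)
    (c : ℕ → 𝕜) (F E : Finset ℕ) (hFE : F ⊆ E) :
    ‖∑ i ∈ F, c i • e i‖ ≤ C * ‖∑ i ∈ E, c i • e i‖ := by
  classical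
  set t : ℝ := ∑ i ∈ F, ‖c i‖ with ht
  have ht0 : 0 ≤ t := sum_nonneg fun i _ => norm_nonneg _
  set w : X := ∑ i ∈ F, c i • e i + ∑ i ∈ E \ F, (t : 𝕜) • e i with hw
  have hcoef : ∀ j, f j w = (if j ∈ F then c j else 0) + (if j ∈ E \ F then (t : 𝕜) else 0) := by
    intro j
    rw [hw, map_add, coeff_sum hb, coeff_sum hb (E \ F) (fun _ => (t : 𝕜))]
  have hB : ∀ i ∈ E \ F, f i w = (t : 𝕜) := by
    intro i hi
    rw [hcoef, if_pos hi, if_neg (mem_sdiff.1 hi).2, zero_add]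
  have h := hC w (E \ F) (E \ F) (fun i => (t : 𝕜) - c i) (by
    intro i hi j hj
    rw [hB i hi, hcoef, if_neg hj, add_zero, RCLike.norm_ofReal, abs_of_nonneg ht0]
    split_ifs with hjF
    · exact single_le_sum (f := fun i => ‖c i‖) (fun i _ => norm_nonneg _) hjF
    · simpa using ht0) le_rfl
  have e1 : w - ∑ i ∈ E \ F, f i w • e i = ∑ i ∈ F, c i • e i := by
    rw [sum_congr rfl (g := fun i => (t : 𝕜) • e i) (fun i hi => by rw [hB i hi]), hw]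
    abel
  have e2 : w - ∑ i ∈ E \ F, ((t : 𝕜) - c i) • e i = ∑ i ∈ E, c i • e i := by
    rw [hw, ← sum_sdiff hFE]
    simp only [sub_smul, sum_sub_distrib]
    abel
  rwa [e1, e2] at h

/-- Suppression unconditionality. -/
theorem suppression (hb : ∀ i j : ℕ, f i (e j) = if i = j then 1 else 0)
    (hs : ∀ x : X, Tendsto (fun N : ℕ => ∑ n ∈ range N, f n x • e n) atTop (𝓝 x)) {C : ℝ}
    (hC : ∀ (x : X) (A B : Finset ℕ) (a : ℕ → 𝕜),
      (∀ i ∈ A, ∀ j ∉ A, ‖f j x‖ ≤ ‖f i x‖) → B.card ≤ A.card →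
      ‖x - ∑ i ∈ A, f i x • e i‖ ≤ C * ‖x - ∑ i ∈ B, a i • e i‖)
    (x : X) (F : Finset ℕ) : ‖∑ i ∈ F, f i x • e i‖ ≤ C * ‖x‖ := by
  have hlim : Tendsto (fun N : ℕ => C * ‖∑ n ∈ range N, f n x • e n‖) atTop (𝓝 (C * ‖x‖)) :=
    ((hs x).norm).const_mul C
  refine ge_of_tendsto hlim ?_
  filter_upwards [eventually_ge_atTop (F.sup id + 1)] with N hN
  refine suppression_fin hb hC (fun i => f i x) F (range N) fun i hi => ?_
  have : i ≤ F.sup id := le_sup (f := id) hi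
  exact mem_range.2 (by omega)

/-- The moduli of the values of norm-one functionals on the basis. -/
def dualSet (𝕜 : Type) [RCLike 𝕜] {X : Type*} [NormedAddCommGroup X] [NormedSpace 𝕜 X]
    (e : ℕ → X) : Set (ℕ → ℝ) :=
  {g | ∃ l : X →L[𝕜] 𝕜, ‖l‖ ≤ 1 ∧ ∀ i, g i = ‖l (e i)‖}

theorem norm_apply_le {l : X →L[𝕜] 𝕜} (hl : ‖l‖ ≤ 1) (x : X) : ‖l x‖ ≤ ‖x‖ :=
  (l.le_opNorm x).trans (by simpa using mul_le_mul_of_nonneg_right hl (norm_nonneg x))

theorem dualSet_nonneg : ∀ g ∈ dualSet 𝕜 e, ∀ i, 0 ≤ g i := by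
  rintro g ⟨l, _, hg⟩ i
  rw [hg]; exact norm_nonneg _

theorem dualSet_bd (hb : ∀ i j : ℕ, f i (e j) = if i = j then 1 else 0)
    (hs : ∀ x : X, Tendsto (fun N : ℕ => ∑ n ∈ range N, f n x • e n) atTop (𝓝 x)) {C : ℝ}
    (hC : ∀ (x : X) (A B : Finset ℕ) (a : ℕ → 𝕜),
      (∀ i ∈ A, ∀ j ∉ A, ‖f j x‖ ≤ ‖f i x‖) → B.card ≤ A.card →
      ‖x - ∑ i ∈ A, f i x • e i‖ ≤ C * ‖x - ∑ i ∈ B, a i • e i‖)
    (x : X) : Bd (dualSet 𝕜 e) (fun i => ‖f i x‖) (4 * (C * ‖x‖)) := by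
  refine ⟨fun i => norm_nonneg _, ?_⟩
  rintro g ⟨l, hl, hg⟩ F
  have h := sum_norm_le_four (fun i => f i x * l (e i)) F (C * ‖x‖) (fun F' _ => by
    have : ∑ i ∈ F', f i x * l (e i) = l (∑ i ∈ F', f i x • e i) := by
      rw [map_sum]; simp
    rw [this]
    exact (norm_apply_le hl _).trans (suppression hb hs hC x F'))
  refine le_trans (le_of_eq ?_) h
  refine sum_congr rfl fun i _ => ?_
  rw [hg, norm_mul, mul_comm]

theorem dualSet_sum_le (hb : ∀ i j : ℕ, f i (e j) = if i = j then 1 else 0) {C : ℝ}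
    (hC : ∀ (x : X) (A B : Finset ℕ) (a : ℕ → 𝕜),
      (∀ i ∈ A, ∀ j ∉ A, ‖f j x‖ ≤ ‖f i x‖) → B.card ≤ A.card →
      ‖x - ∑ i ∈ A, f i x • e i‖ ≤ C * ‖x - ∑ i ∈ B, a i • e i‖)
    {g : ℕ → ℝ} (hg : g ∈ dualSet 𝕜 e) (D E : Finset ℕ) (hDE : D.card ≤ E.card) :
    ∑ i ∈ D, g i ≤ 4 * (C * ‖∑ i ∈ E, e i‖) := by
  obtain ⟨l, hl, hg⟩ := hg
  have h := sum_norm_le_four (fun i => l (e i)) D (C * ‖∑ i ∈ E, e i‖) (fun F' hF' => by
    rw [← map_sum]
    exact (norm_apply_le hl _).trans (democracy hb hC F' E ((card_le_card hF').trans hDE)))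
  refine le_trans (le_of_eq ?_) h
  exact sum_congr rfl fun i _ => hg i

theorem exists_norming (D : Finset ℕ) :
    ∃ g ∈ dualSet 𝕜 e, ‖∑ i ∈ D, e i‖ ≤ ∑ i ∈ D, g i := by
  obtain ⟨l, hl, hx⟩ := exists_dual_vector'' 𝕜 (∑ i ∈ D, e i)
  refine ⟨fun i => ‖l (e i)‖, ⟨l, hl, fun _ => rfl⟩, ?_⟩
  have : ‖∑ i ∈ D, e i‖ = ‖l (∑ i ∈ D, e i)‖ := by
    rw [hx, RCLike.norm_ofReal, abs_of_nonneg (norm_nonneg _)]
  rw [this, map_sum]
  exact norm_sum_le _ _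

theorem ind_pos (hb : ∀ i j : ℕ, f i (e j) = if i = j then 1 else 0) {n : ℕ} (hn : 0 < n) :
    0 < ‖∑ i ∈ range n, e i‖ := by
  rw [norm_pos_iff]
  intro h
  have := coeff_ind hb (range n) 0
  rw [h, map_zero, if_pos (mem_range.2 hn)] at this
  exact zero_ne_one this

theorem one_le_const (hb : ∀ i j : ℕ, f i (e j) = if i = j then 1 else 0) {C : ℝ}
    (hC : ∀ (x : X) (A B : Finset ℕ) (a : ℕ → 𝕜),
      (∀ i ∈ A, ∀ j ∉ A, ‖f j x‖ ≤ ‖f i x‖) → B.card ≤ A.card →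
      ‖x - ∑ i ∈ A, f i x • e i‖ ≤ C * ‖x - ∑ i ∈ B, a i • e i‖) : 1 ≤ C := by
  have h := democracy hb hC (range 1) (range 1) le_rfl
  have hp := ind_pos hb Nat.one_pos
  by_contra hlt
  nlinarith [not_le.1 hlt]

/-- Lower democracy estimate with quasi-concavity of the fundamental function. -/
theorem exists_dual_large (hb : ∀ i j : ℕ, f i (e j) = if i = j then 1 else 0) {C : ℝ}
    (hC : ∀ (x : X) (A B : Finset ℕ) (a : ℕ → 𝕜),
      (∀ i ∈ A, ∀ j ∉ A, ‖f j x‖ ≤ ‖f i x‖) → B.card ≤ A.card →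
      ‖x - ∑ i ∈ A, f i x • e i‖ ≤ C * ‖x - ∑ i ∈ B, a i • e i‖)
    (D : Finset ℕ) (n : ℕ) (hD : D.card ≤ n) :
    ∃ g ∈ dualSet 𝕜 e, (4 * (C * ‖∑ i ∈ range n, e i‖)) * D.card ≤
      (16 * C ^ 2) * n * ∑ i ∈ D, g i := by
  have hC1 := one_le_const hb hC
  obtain ⟨g, hg, hgD⟩ := exists_norming (𝕜 := 𝕜) (e := e) D
  obtain ⟨h, hh, hhn⟩ := exists_norming (𝕜 := 𝕜) (e := e) (range n)
  obtain ⟨J, _, hJc, hJs⟩ := exists_subset_avg h n (range n) D.card (card_range n) hD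
  have hJ := dualSet_sum_le hb hC hh J D hJc.le
  refine ⟨g, hg, ?_⟩
  have hn : (0 : ℝ) ≤ n := Nat.cast_nonneg n
  have hd : (0 : ℝ) ≤ D.card := Nat.cast_nonneg _
  have h1 : (D.card : ℝ) * ‖∑ i ∈ range n, e i‖ ≤ D.card * ∑ i ∈ range n, h i :=
    mul_le_mul_of_nonneg_left hhn hd
  have h2 : (n : ℝ) * ∑ i ∈ J, h i ≤ n * (4 * (C * ‖∑ i ∈ D, e i‖)) :=
    mul_le_mul_of_nonneg_left hJ hn
  have h3 : (n : ℝ) * (4 * (C * ‖∑ i ∈ D, e i‖)) ≤ n * (4 * (C * ∑ i ∈ D, g i)) := by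
    gcongr
  have h4 : (D.card : ℝ) * ‖∑ i ∈ range n, e i‖ ≤ n * (4 * (C * ∑ i ∈ D, g i)) := by linarith
  have h5 := mul_le_mul_of_nonneg_left h4 (show 0 ≤ 4 * C by linarith)
  nlinarith

/-- The relation controls the original norm. -/
theorem norm_le_of_rel
    (hs : ∀ x : X, Tendsto (fun N : ℕ => ∑ n ∈ range N, f n x • e n) atTop (𝓝 x))
    {φ : ℕ → ℝ} (hφ : ∀ g ∈ dualSet 𝕜 e, Shape φ g) {M : ℝ} (hM : 0 ≤ M) (x : X) {t : ℝ}
    (h : Rel (dualSet 𝕜 e) φ M (fun i => ‖f i x‖) t) : ‖x‖ ≤ (1 + M) * t := by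
  obtain ⟨v, z, hv, hz, hsz⟩ := h
  obtain ⟨l, hl, hx⟩ := exists_dual_vector'' 𝕜 x
  have hg : (fun i => ‖l (e i)‖) ∈ dualSet 𝕜 e := ⟨l, hl, fun _ => rfl⟩
  have hlim : Tendsto (fun N : ℕ => ‖l (∑ n ∈ range N, f n x • e n)‖) atTop (𝓝 ‖l x‖) :=
    ((l.continuous.tendsto x).comp (hs x)).norm
  have e1 : ‖l x‖ = ‖x‖ := by
    rw [hx, RCLike.norm_ofReal, abs_of_nonneg (norm_nonneg _)]
  rw [e1] at hlim
  refine le_of_tendsto' hlim fun N => ?_
  have h1 := hv.2 _ hg (range N)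
  have h2 := mul_le_mul_of_nonneg_left (hz.2 _ (hφ _ hg) (range N)) hM
  rw [mul_sum] at h2
  have h3 := add_le_add h1 h2
  rw [← sum_add_distrib] at h3
  rw [map_sum]
  refine (norm_sum_le _ _).trans (le_trans (sum_le_sum fun i _ => ?_) (h3.trans (by linarith)))
  rw [map_smul, smul_eq_mul, norm_mul]
  have := mul_le_mul_of_nonneg_left (hsz i) (norm_nonneg (l (e i)))
  dsimp only at this
  nlinarith

end

theorem renorm (𝕜 : Type) [RCLike 𝕜] (X : Type*) [NormedAddCommGroup X] [NormedSpace 𝕜 X]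
    (e : ℕ → X) (f : ℕ → X →L[𝕜] 𝕜)
    (hb : ∀ i j : ℕ, f i (e j) = if i = j then 1 else 0)
    (hs : ∀ x : X, Tendsto (fun N : ℕ => ∑ n ∈ range N, f n x • e n) atTop (𝓝 x)) {C : ℝ}
    (hC : ∀ (x : X) (A B : Finset ℕ) (a : ℕ → 𝕜),
      (∀ i ∈ A, ∀ j ∉ A, ‖f j x‖ ≤ ‖f i x‖) → B.card ≤ A.card →
      ‖x - ∑ i ∈ A, f i x • e i‖ ≤ C * ‖x - ∑ i ∈ B, a i • e i‖)
    (ε : ℝ) (hε : 0 < ε) :
    ∃ N : Seminorm 𝕜 X,
      (∀ x : X, ‖x‖ ≤ (1 + 64 * C ^ 2 * (1 + ε) / ε ^ 2) * N x ∧ N x ≤ 4 * C * ‖x‖) ∧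
      (∀ x y : X, (∀ i, ‖f i x‖ ≤ ‖f i y‖) → N x ≤ N y) ∧
      ∀ (x : X) (A B : Finset ℕ) (a : ℕ → 𝕜),
        (∀ i ∈ A, ∀ j ∉ A, ‖f j x‖ ≤ ‖f i x‖) → B.card ≤ A.card →
        N (x - ∑ i ∈ A, f i x • e i) ≤ (1 + ε) * N (x - ∑ i ∈ B, a i • e i) := by
  classical
  have hC1 := one_le_const hb hC
  set φ : ℕ → ℝ := fun m => 4 * (C * ‖∑ i ∈ range m, e i‖) with hφ
  set K : ℝ := 16 * C ^ 2 with hK
  have hK0 : 0 < K := by positivity
  set η : ℝ := ε / (2 * (1 + ε)) with hη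
  have hη0 : 0 < η := by positivity
  have hη1 : 0 < 1 - η := by
    rw [hη, sub_pos, div_lt_one (by positivity)]; linarith
  set L : ℝ := K / η with hL
  have hL0 : 0 < L := by positivity
  set M : ℝ := 2 * L / ε with hM
  have hM0 : 0 < M := by positivity
  have hshape : ∀ g ∈ dualSet 𝕜 e, Shape φ g := by
    intro g hg
    refine ⟨dualSet_nonneg g hg, fun D m hD => ?_⟩
    exact dualSet_sum_le hb hC hg D (range m) (by rwa [card_range])
  have hφpos : ∀ n, 0 < n → 0 < φ n := by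
    intro n hn
    have := ind_pos hb hn
    simp only [hφ]
    positivity
  set T : X → Set ℝ := fun x => {t | 0 < t ∧ Rel (dualSet 𝕜 e) φ M (fun i => ‖f i x‖) t}
    with hT
  have hup : ∀ x t, 4 * (C * ‖x‖) < t → t ∈ T x := by
    intro x t ht
    have h0 : 0 ≤ 4 * (C * ‖x‖) := by positivity
    refine ⟨by linarith, _, _, (dualSet_bd hb hs hC x).mono ht.le, Bd.zero _ (by linarith),
      fun i => by simp⟩
  have hne : ∀ x, (T x).Nonempty := fun x => ⟨_, hup x (4 * (C * ‖x‖) + 1) (by linarith)⟩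
  have hbdd : ∀ x, BddBelow (T x) := fun x => ⟨0, fun t ht => ht.1.le⟩
  have hle : ∀ x, sInf (T x) ≤ 4 * (C * ‖x‖) := by
    intro x
    refine le_of_forall_gt_imp_ge_of_dense fun t ht => csInf_le (hbdd x) (hup x t ht)
  have hnonneg : ∀ x, 0 ≤ sInf (T x) := fun x => le_csInf (hne x) fun t ht => ht.1.le
  -- transfer principle
  have htrans : ∀ (x y : X) (c : ℝ), 0 < c → (∀ t ∈ T y, c * t ∈ T x) →
      sInf (T x) ≤ c * sInf (T y) := by
    intro x y c hc h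
    rw [mul_comm, ← div_le_iff₀ hc]
    refine le_csInf (hne y) fun t ht => ?_
    rw [div_le_iff₀ hc, mul_comm]
    exact csInf_le (hbdd x) (h t ht)
  have hzero : sInf (T 0) = 0 := le_antisymm (by simpa using hle 0) (hnonneg 0)
  have hadd : ∀ x y, sInf (T (x + y)) ≤ sInf (T x) + sInf (T y) := by
    intro x y
    rw [← sub_le_iff_le_add]
    refine le_csInf (hne x) fun s hs' => ?_
    rw [sub_le_comm]
    refine le_csInf (hne y) fun t ht => ?_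
    rw [sub_le_iff_le_add']
    refine csInf_le (hbdd _) ⟨add_pos hs'.1 ht.1, hs'.2.add ht.2 fun i => ?_⟩
    rw [map_add]
    exact norm_add_le _ _
  have hsmul : ∀ (r : 𝕜) (x : X), sInf (T (r • x)) ≤ ‖r‖ * sInf (T x) := by
    intro r x
    rcases eq_or_ne r 0 with hr | hr
    · simp [hr, hzero]
    · have hr' : 0 < ‖r‖ := norm_pos_iff.2 hr
      refine htrans _ _ _ hr' fun t ht => ⟨mul_pos hr' ht.1, ht.2.smul hr'.le fun i => ?_⟩
      rw [map_smul, smul_eq_mul, norm_mul]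
  refine ⟨Seminorm.ofSMulLE (fun x => sInf (T x)) hzero hadd hsmul,
    fun x => ⟨?_, ?_⟩, fun x y hxy => ?_, ?_⟩
  · have eM : 64 * C ^ 2 * (1 + ε) / ε ^ 2 = M := by
      rw [hM, hL, hK, hη]
      field_simp
      ring
    rw [eM, mul_comm, ← div_le_iff₀ (by positivity)]
    change ‖x‖ / (1 + M) ≤ sInf (T x)
    refine le_csInf (hne x) fun t ht => ?_
    have := norm_le_of_rel hs hshape hM0.le x ht.2
    rw [div_le_iff₀ (by positivity)]
    linarith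
  · change sInf (T x) ≤ 4 * C * ‖x‖
    have := hle x
    linarith
  · change sInf (T x) ≤ sInf (T y)
    have := htrans x y 1 one_pos fun t ht =>
      ⟨by simpa using ht.1, ht.2.smul zero_le_one fun i => by simpa using hxy i⟩
    simpa using this
  · intro x A B a hA hBA
    change sInf (T (x - ∑ i ∈ A, f i x • e i)) ≤ (1 + ε) * sInf (T (x - ∑ i ∈ B, a i • e i))
    refine htrans _ _ _ (by positivity) fun t ht => ⟨mul_pos (by positivity) ht.1, ?_⟩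
    have hcA : ∀ j, f j (x - ∑ i ∈ A, f i x • e i) = if j ∈ A then 0 else f j x := by
      intro j
      rw [map_sub, coeff_sum hb A (fun i => f i x)]
      split_ifs <;> simp
    have hcB : ∀ j, j ∉ B → f j (x - ∑ i ∈ B, a i • e i) = f j x := by
      intro j hj
      rw [map_sub, coeff_sum hb B a, if_neg hj, sub_zero]
    have hcard : (B \ A).card ≤ (A \ B).card := by
      have h1 := card_sdiff_add_card_inter A B
      have h2 := card_sdiff_add_card_inter B A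
      rw [inter_comm] at h2
      omega
    have hex := Rel.exchange (η := η) (s' := fun i => ‖f i (x - ∑ i ∈ A, f i x • e i)‖)
      hM0 hL0 hK0.le (by rw [hL]; field_simp; rfl) dualSet_nonneg hφpos
      (exists_dual_large hb hC) ht.1 ht.2 (B \ A) (A \ B) hcard (fun i => norm_nonneg _)
      (by
        intro i hi j hj
        rw [hcA, if_neg (mem_sdiff.1 hi).2, hcB j (mem_sdiff.1 hj).2]
        exact hA j (mem_sdiff.1 hj).1 i (mem_sdiff.1 hi).2)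
      (by
        intro j hj
        rw [hcA, if_pos (mem_sdiff.1 hj).1, norm_zero])
      (by
        intro i hi1 hi2
        rw [hcA]
        split_ifs with hiA
        · rw [norm_zero]; exact norm_nonneg _
        · have hiB : i ∉ B := fun hiB => hi1 (mem_sdiff.2 ⟨hiB, hiA⟩)
          rw [hcB i hiB])
    have hfin := hex.smul (c := 1 / (1 - η))
      (s' := fun i => ‖f i (x - ∑ i ∈ A, f i x • e i)‖) (by positivity) (fun i => by
        rw [← mul_assoc, one_div_mul_cancel hη1.ne', one_mul])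
    have hconst : 1 / (1 - η) * ((1 + L / M) * t) = (1 + ε) * t := by
      have e1 : L / M = ε / 2 := by rw [hM]; field_simp
      have e2 : 1 - η = (1 + ε / 2) / (1 + ε) := by rw [hη]; field_simp; ring
      rw [e1, e2]
      field_simp
    rwa [hconst] at hfin

end Pool.Agent.Lib.MP_a337a7_an.U
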